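import Mathlib

/-!
# The image of the virtual integral Burau representation
-/

open Matrix

namespace Pool.Agent.Results.MP_e5baee_al.BurauImage

section Blocks

variable {ι : Type} [Fintype ι] [DecidableEq ι]

/-- The matrix acting on the coordinates `u, v` by the block `(p q; r s)` and trivially on the
other coordinates. -/
def blk (u v : ι) (p q r s : ℤ) : Matrix ι ι ℤ := fun a b =>
  if a = u then (if b = u then p else if b = v then q else 0)
  else if a = v then (if b = u then r else if b = v then s else 0)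
  else if a = b then 1 else 0

theorem sum_two {u v : ι} (h : u ≠ v) (p q : ℤ) (x : ι → ℤ) :
    ∑ b, (if b = u then p else if b = v then q else 0) * x b = p * x u + q * x v := by
  have h1 : ∀ b, (if b = u then p else if b = v then q else 0) * x b =
      (if b = u then p * x b else 0) + (if b = v then q * x b else 0) := by
    intro b
    by_cases hb : b = u
    · subst hb
      simp [h]
    · simp [hb]
  rw [Finset.sum_congr rfl fun b _ => h1 b, Finset.sum_add_distrib, Finset.sum_ite_eq',
    Finset.sum_ite_eq']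
  simp

theorem blk_mulVec {u v : ι} (h : u ≠ v) (p q r s : ℤ) (x : ι → ℤ) :
    blk u v p q r s *ᵥ x = fun a => if a = u then p * x u + q * x v
      else if a = v then r * x u + s * x v else x a := by
  funext a
  show ∑ b, blk u v p q r s a b * x b = _
  unfold blk
  by_cases ha : a = u
  · simp only [ha, if_true]
    exact sum_two h p q x
  · by_cases ha' : a = v
    · simp only [ha', if_true, if_neg h.symm]
      exact sum_two h r s x
    · simp only [if_neg ha, if_neg ha']
      simp

theorem ext_vec {M N : Matrix ι ι ℤ} (h : ∀ x, M *ᵥ x = N *ᵥ x) : M = N := by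
  ext i j
  have h1 := congrFun (h (Pi.single j 1)) i
  rw [mulVec_single_one, mulVec_single_one] at h1
  exact h1

theorem blk_mul {u v : ι} (h : u ≠ v) (p q r s p' q' r' s' : ℤ) :
    blk u v p q r s * blk u v p' q' r' s' =
      blk u v (p * p' + q * r') (p * q' + q * s') (r * p' + s * r') (r * q' + s * s') := by
  apply ext_vec
  intro x
  rw [← mulVec_mulVec, blk_mulVec h, blk_mulVec h, blk_mulVec h]
  funext a
  by_cases ha : a = u
  · simp only [ha, if_true, if_neg h.symm]; ring
  · by_cases ha' : a = v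
    · simp only [ha', if_true, if_neg h.symm]; ring
    · simp only [if_neg ha, if_neg ha']

theorem blk_one {u v : ι} (h : u ≠ v) : blk u v 1 0 0 1 = 1 := by
  apply ext_vec
  intro x
  rw [blk_mulVec h, one_mulVec]
  funext a
  by_cases ha : a = u
  · simp [ha]
  · by_cases ha' : a = v
    · simp [ha', h.symm]
    · simp [ha, ha']

/-- The block `(2 -1; 1 0)`. -/
def uσ (u v : ι) (h : u ≠ v) : GL ι ℤ where
  val := blk u v 2 (-1) 1 0
  inv := blk u v 0 1 (-1) 2
  val_inv := by rw [blk_mul h]; exact blk_one h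
  inv_val := by rw [blk_mul h]; exact blk_one h

/-- The block `(0 1; 1 0)`. -/
def uτ (u v : ι) (h : u ≠ v) : GL ι ℤ where
  val := blk u v 0 1 1 0
  inv := blk u v 0 1 1 0
  val_inv := by rw [blk_mul h]; exact blk_one h
  inv_val := by rw [blk_mul h]; exact blk_one h

/-- The block `(-1 2; 0 1)`: reflection of the `u`-th coordinate through the `v`-th one. -/
def uT (u v : ι) (h : u ≠ v) : GL ι ℤ where
  val := blk u v (-1) 2 0 1
  inv := blk u v (-1) 2 0 1
  val_inv := by rw [blk_mul h]; exact blk_one h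
  inv_val := by rw [blk_mul h]; exact blk_one h

theorem uT_mulVec {u v : ι} (h : u ≠ v) (x : ι → ℤ) :
    (uT u v h : Matrix ι ι ℤ) *ᵥ x = Function.update x u (2 * x v - x u) := by
  show blk u v (-1) 2 0 1 *ᵥ x = _
  rw [blk_mulVec h]
  funext a
  by_cases ha : a = u
  · subst ha
    simp; ring
  · by_cases ha' : a = v
    · subst ha'
      simp [ha]
    · simp [ha, ha']

theorem ext_unit {M N : GL ι ℤ} (h : ∀ x, (M : Matrix ι ι ℤ) *ᵥ x = (N : Matrix ι ι ℤ) *ᵥ x) :
    M = N := Units.ext (ext_vec h)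

theorem uσ_mul_uτ {u v : ι} (h : u ≠ v) : uσ u v h * uτ u v h = uT u v h := by
  apply Units.ext
  show blk u v 2 (-1) 1 0 * blk u v 0 1 1 0 = blk u v (-1) 2 0 1
  rw [blk_mul h]
  rfl

/-! ### Permutation matrices -/

/-- The matrix of a permutation. -/
def pm (π : Equiv.Perm ι) : Matrix ι ι ℤ := fun a b => if a = π b then 1 else 0

theorem pm_mulVec (π : Equiv.Perm ι) (x : ι → ℤ) : pm π *ᵥ x = fun a => x (π⁻¹ a) := by
  funext a
  show ∑ b, (if a = π b then 1 else 0) * x b = x (π⁻¹ a)
  rw [Finset.sum_eq_single (π⁻¹ a)]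
  · simp
  · intro b _ hb
    rw [if_neg, zero_mul]
    rintro rfl
    simp at hb
  · intro h
    exact absurd (Finset.mem_univ _) h

/-- Permutation matrices, as a homomorphism. -/
def up : Equiv.Perm ι →* GL ι ℤ where
  toFun π :=
    { val := pm π
      inv := pm π⁻¹
      val_inv := by
        apply ext_vec
        intro x
        rw [← mulVec_mulVec, pm_mulVec, pm_mulVec, one_mulVec]
        funext a
        simp
      inv_val := by
        apply ext_vec
        intro x
        rw [← mulVec_mulVec, pm_mulVec, pm_mulVec, one_mulVec]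
        funext a
        simp }
  map_one' := by
    apply ext_unit
    intro x
    show pm 1 *ᵥ x = (1 : Matrix ι ι ℤ) *ᵥ x
    rw [pm_mulVec, one_mulVec]
    rfl
  map_mul' π ρ := by
    apply ext_unit
    intro x
    show pm (π * ρ) *ᵥ x = (pm π * pm ρ) *ᵥ x
    rw [← mulVec_mulVec, pm_mulVec, pm_mulVec, pm_mulVec]
    funext a
    simp

theorem up_mulVec (π : Equiv.Perm ι) (x : ι → ℤ) :
    (up π : Matrix ι ι ℤ) *ᵥ x = fun a => x (π⁻¹ a) := pm_mulVec π x

theorem up_swap {u v : ι} (h : u ≠ v) : up (Equiv.swap u v) = uτ u v h := by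
  apply ext_unit
  intro x
  rw [up_mulVec]
  show _ = blk u v 0 1 1 0 *ᵥ x
  rw [blk_mulVec h]
  funext a
  by_cases ha : a = u
  · subst ha
    simp
  · by_cases ha' : a = v
    · subst ha'
      simp [ha]
    · simp [ha, ha', Equiv.swap_apply_of_ne_of_ne ha ha']

theorem up_conj (π : Equiv.Perm ι) {u v : ι} (h : u ≠ v) :
    up π * uT u v h * (up π)⁻¹ = uT (π u) (π v) (fun h' => h (π.injective h')) := by
  rw [mul_inv_eq_iff_eq_mul]
  apply ext_unit
  intro x
  show (((up π : GL ι ℤ) : Matrix ι ι ℤ) * (uT u v h : Matrix ι ι ℤ)) *ᵥ x =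
    ((uT (π u) (π v) _ : Matrix ι ι ℤ) * ((up π : GL ι ℤ) : Matrix ι ι ℤ)) *ᵥ x
  rw [← mulVec_mulVec, ← mulVec_mulVec, up_mulVec, up_mulVec, uT_mulVec, uT_mulVec]
  funext a
  by_cases ha : a = π u
  · subst ha
    simp
  · have ha' : π⁻¹ a ≠ u := by
      rintro rfl
      simp at ha
    rw [Function.update_of_ne ha', Function.update_of_ne ha]

/-! ### The group of all candidates -/

/-- Row sums `1`, congruent to `1` modulo `2`, and trivial outside of `s`. -/
def Γ (s : Finset ι) : Subgroup (GL ι ℤ) where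
  carrier := {M | (M : Matrix ι ι ℤ) *ᵥ (fun _ => 1) = (fun _ => 1) ∧
    (M : Matrix ι ι ℤ).map (Int.castRingHom (ZMod 2)) = 1 ∧
    (∀ b, b ∉ s → (M : Matrix ι ι ℤ) *ᵥ Pi.single b 1 = Pi.single b 1) ∧
    (∀ a, a ∉ s → Pi.single a 1 ᵥ* (M : Matrix ι ι ℤ) = Pi.single a 1)}
  one_mem' := by
    refine ⟨one_mulVec _, ?_, fun b _ => one_mulVec _, fun a _ => vecMul_one _⟩
    show (1 : Matrix ι ι ℤ).map (Int.castRingHom (ZMod 2)) = 1
    exact Matrix.map_one _ (map_zero _) (map_one _)
  mul_mem' := by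
    rintro M N ⟨h1, h2, h3, h4⟩ ⟨k1, k2, k3, k4⟩
    refine ⟨?_, ?_, fun b hb => ?_, fun a ha => ?_⟩
    · show ((M : Matrix ι ι ℤ) * (N : Matrix ι ι ℤ)) *ᵥ _ = _
      rw [← mulVec_mulVec, k1, h1]
    · show ((M : Matrix ι ι ℤ) * (N : Matrix ι ι ℤ)).map (Int.castRingHom (ZMod 2)) = 1
      rw [Matrix.map_mul, h2, k2, one_mul]
    · show ((M : Matrix ι ι ℤ) * (N : Matrix ι ι ℤ)) *ᵥ _ = _
      rw [← mulVec_mulVec, k3 b hb, h3 b hb]
    · show _ ᵥ* ((M : Matrix ι ι ℤ) * (N : Matrix ι ι ℤ)) = _
      rw [← vecMul_vecMul, h4 a ha, k4 a ha]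
  inv_mem' := by
    rintro M ⟨h1, h2, h3, h4⟩
    have hMN : ((M⁻¹ : GL ι ℤ) : Matrix ι ι ℤ) * (M : Matrix ι ι ℤ) = 1 := M.inv_mul
    have hNM : (M : Matrix ι ι ℤ) * ((M⁻¹ : GL ι ℤ) : Matrix ι ι ℤ) = 1 := M.mul_inv
    refine ⟨?_, ?_, fun b hb => ?_, fun a ha => ?_⟩
    · conv_lhs => rw [← h1]
      rw [mulVec_mulVec, hMN, one_mulVec]
    · have h5 := congrArg (fun X : Matrix ι ι ℤ => X.map (Int.castRingHom (ZMod 2))) hMN
      simp only [Matrix.map_mul, h2, mul_one] at h5
      rw [h5]
      exact Matrix.map_one _ (map_zero _) (map_one _)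
    · conv_lhs => rw [← h3 b hb]
      rw [mulVec_mulVec, hMN, one_mulVec]
    · conv_lhs => rw [← h4 a ha]
      rw [vecMul_vecMul, hNM, vecMul_one]

theorem uT_mem_Γ {s : Finset ι} {i j : ι} (h : i ≠ j) (hi : i ∈ s) (hj : j ∈ s) :
    uT i j h ∈ Γ s := by
  refine ⟨?_, ?_, fun b hb => ?_, fun a ha => ?_⟩
  · rw [uT_mulVec]
    funext a
    by_cases ha : a = i
    · subst ha; simp
    · simp [ha]
  · ext a b
    show ((blk i j (-1) 2 0 1 a b : ℤ) : ZMod 2) = (1 : Matrix ι ι (ZMod 2)) a b
    unfold blk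
    rw [Matrix.one_apply]
    have h2 : ((2 : ℤ) : ZMod 2) = 0 := by decide
    have h3 : ((-1 : ℤ) : ZMod 2) = 1 := by decide
    by_cases ha : a = i
    · subst ha
      by_cases hb : b = a
      · subst hb; simp
      · by_cases hb' : b = j
        · subst hb'
          simp [h, h.symm]
          exact h2
        · simp [hb, hb', Ne.symm hb]
    · by_cases ha' : a = j
      · subst ha'
        by_cases hb : b = i
        · subst hb
          simp [h.symm]
        · by_cases hb' : b = a
          · subst hb'; simp [hb]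
          · simp [hb, hb', Ne.symm hb', ha]
      · simp only [if_neg ha, if_neg ha']
        split_ifs <;> simp
  · rw [uT_mulVec]
    have hbi : i ≠ b := fun h' => hb (h' ▸ hi)
    have hbj : j ≠ b := fun h' => hb (h' ▸ hj)
    rw [Pi.single_eq_of_ne hbi, Pi.single_eq_of_ne hbj]
    funext a
    by_cases ha : a = i
    · subst ha; simp [Pi.single_eq_of_ne hbi]
    · simp [ha]
  · have hai : a ≠ i := fun h' => ha (h' ▸ hi)
    have haj : a ≠ j := fun h' => ha (h' ▸ hj)
    rw [single_one_vecMul]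
    funext b
    show blk i j (-1) 2 0 1 a b = _
    unfold blk
    rw [if_neg hai, if_neg haj]
    by_cases hb : a = b
    · subst hb; simp
    · rw [if_neg hb, Pi.single_eq_of_ne (Ne.symm hb)]

/-- Products of reflections with indices in `s`. -/
def W (s : Finset ι) : Submonoid (GL ι ℤ) :=
  Submonoid.closure {M | ∃ (i j : ι) (h : i ≠ j), i ∈ s ∧ j ∈ s ∧ M = uT i j h}

theorem uT_mem_W {s : Finset ι} {i j : ι} (h : i ≠ j) (hi : i ∈ s) (hj : j ∈ s) :
    uT i j h ∈ W s := Submonoid.subset_closure ⟨i, j, h, hi, hj, rfl⟩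

theorem W_le_Γ (s : Finset ι) : W s ≤ (Γ s).toSubmonoid := by
  unfold W
  rw [Submonoid.closure_le]
  rintro _ ⟨i, j, h, hi, hj, rfl⟩
  exact uT_mem_Γ h hi hj

theorem W_le {H : Subgroup (GL ι ℤ)} (hT : ∀ (i j : ι) (h : i ≠ j), uT i j h ∈ H)
    (s : Finset ι) : W s ≤ H.toSubmonoid := by
  unfold W
  rw [Submonoid.closure_le]
  rintro _ ⟨i, j, h, hi, hj, rfl⟩
  exact hT i j h

/-! ### Reduction of a column -/

theorem reduce_abs {s : Finset ι} {k : ι} (hk : k ∈ s) : ∀ (N : ℕ) (c : ι → ℤ),
    ∑ i ∈ s.erase k, (c i - c k).natAbs = N → (∀ i ∈ s.erase k, Even (c i)) → Odd (c k) →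
    (∀ g : ℤ, (∀ i ∈ s.erase k, g ∣ c i - c k) → IsUnit g) →
    ∃ w ∈ W s, ((w : Matrix ι ι ℤ) *ᵥ c) k = c k ∧ (∀ i, i ∉ s → ((w : Matrix ι ι ℤ) *ᵥ c) i = c i) ∧
      ∀ i ∈ s.erase k, (((w : Matrix ι ι ℤ) *ᵥ c) i - c k).natAbs = 1 := by
  intro N
  induction N using Nat.strong_induction_on with
  | _ N ih =>
  intro c hN heven hodd hg
  by_cases hex : ∃ i ∈ s.erase k, ∃ j ∈ s.erase k, (c j - c k).natAbs < (c i - c k).natAbs
  · obtain ⟨i, hi, j, hj, hlt⟩ := hex
    have hik : i ≠ k := (Finset.mem_erase.mp hi).1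
    have hjk : j ≠ k := (Finset.mem_erase.mp hj).1
    have his : i ∈ s := (Finset.mem_erase.mp hi).2
    have hjs : j ∈ s := (Finset.mem_erase.mp hj).2
    have hij : i ≠ j := by
      rintro rfl
      exact lt_irrefl _ hlt
    have hyodd : c j - c k ≠ 0 := by
      intro h0
      have h1 := heven j hj
      have h2 : c j = c k := by omega
      rw [h2] at h1
      exact (Int.not_even_iff_odd.mpr hodd) h1
    obtain ⟨w0, hw0, v, hv, hvabs, hvcase⟩ : ∃ w0 ∈ W s, ∃ v : ℤ,
        (w0 : Matrix ι ι ℤ) *ᵥ c = Function.update c i v ∧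
        (v - c k).natAbs < (c i - c k).natAbs ∧
        (v = 2 * c j - c i ∨ v = 2 * c j - 2 * c k + c i) := by
      by_cases hsign : (0 < c i - c k ∧ 0 < c j - c k) ∨ (c i - c k < 0 ∧ c j - c k < 0)
      · refine ⟨uT i j hij, uT_mem_W hij his hjs, 2 * c j - c i, uT_mulVec hij c, ?_, Or.inl rfl⟩
        omega
      · refine ⟨uT i j hij * uT i k hik, mul_mem (uT_mem_W hij his hjs) (uT_mem_W hik his hk),
          2 * c j - 2 * c k + c i, ?_, ?_, Or.inr rfl⟩
        · show ((uT i j hij : Matrix ι ι ℤ) * (uT i k hik : Matrix ι ι ℤ)) *ᵥ c = _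
          rw [← mulVec_mulVec, uT_mulVec, uT_mulVec]
          rw [Function.update_idem, Function.update_self, Function.update_of_ne hij.symm]
          congr 1
          ring
        · omega
    set c1 := Function.update c i v with hc1
    have hc1k : c1 k = c k := Function.update_of_ne hik.symm _ _
    have hc1i : c1 i = v := Function.update_self _ _ _
    have hc1o : ∀ l, l ≠ i → c1 l = c l := fun l hl => Function.update_of_ne hl _ _
    have hsum : ∑ l ∈ s.erase k, (c1 l - c1 k).natAbs < N := by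
      rw [← hN]
      apply Finset.sum_lt_sum
      · intro l _
        by_cases hl : l = i
        · subst hl
          rw [hc1i, hc1k]
          exact hvabs.le
        · rw [hc1o l hl, hc1k]
      · exact ⟨i, hi, by rw [hc1i, hc1k]; exact hvabs⟩
    have heven1 : ∀ l ∈ s.erase k, Even (c1 l) := by
      intro l hl
      by_cases hli : l = i
      · subst hli
        rw [hc1i]
        obtain ⟨a, ha⟩ := heven l hl
        obtain ⟨b, hb⟩ := heven j hj
        rcases hvcase with h | h
        · exact ⟨2 * b - a, by omega⟩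
        · exact ⟨2 * b - c k + a, by omega⟩
      · rw [hc1o l hli]
        exact heven l hl
    obtain ⟨w1, hw1, h1, h2, h3⟩ := ih _ hsum c1 rfl heven1 (by rw [hc1k]; exact hodd) (by
      intro g hgl
      apply hg g
      intro l hl
      by_cases hli : l = i
      · subst hli
        have e1 := hgl l hl
        rw [hc1i, hc1k] at e1
        have e2 := hgl j hj
        rw [hc1o j hij.symm, hc1k] at e2
        rcases hvcase with h | h
        · have : c l - c k = 2 * (c j - c k) - (v - c k) := by rw [h]; ring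
          rw [this]
          exact dvd_sub (Dvd.dvd.mul_left e2 2) e1
        · have : c l - c k = (v - c k) - 2 * (c j - c k) := by rw [h]; ring
          rw [this]
          exact dvd_sub e1 (Dvd.dvd.mul_left e2 2)
      · have e1 := hgl l hl
        rw [hc1o l hli, hc1k] at e1
        exact e1)
    have hw : ((w1 * w0 : GL ι ℤ) : Matrix ι ι ℤ) *ᵥ c = (w1 : Matrix ι ι ℤ) *ᵥ c1 := by
      show ((w1 : Matrix ι ι ℤ) * (w0 : Matrix ι ι ℤ)) *ᵥ c = _
      rw [← mulVec_mulVec, hv]
    refine ⟨w1 * w0, mul_mem hw1 hw0, ?_, ?_, ?_⟩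
    · rw [hw, h1, hc1k]
    · intro l hl
      rw [hw, h2 l hl, hc1o l (fun h' => hl (h' ▸ his))]
    · intro l hl
      rw [hw]
      have := h3 l hl
      rw [hc1k] at this
      exact this
  · push Not at hex
    refine ⟨1, one_mem _, ?_, ?_, ?_⟩
    · rw [Units.val_one, one_mulVec]
    · intro i _
      rw [Units.val_one, one_mulVec]
    · intro i hi
      rw [Units.val_one, one_mulVec]
      have h1 : IsUnit (c i - c k) := by
        apply hg
        intro j hj
        apply Int.natAbs_dvd_natAbs.mp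
        rw [le_antisymm (hex i hi j hj) (hex j hj i hi)]
      exact Int.isUnit_iff_natAbs_eq.mp h1

theorem flip {s : Finset ι} {k : ι} (hk : k ∈ s) {ε : ℤ} (hε : ε = 1 ∨ ε = -1) (c : ι → ℤ)
    (hc : ∀ i ∈ s.erase k, (c i - c k).natAbs = 1) (t : Finset ι) (ht : t ⊆ s.erase k) :
    ∃ w ∈ W s, ((w : Matrix ι ι ℤ) *ᵥ c) k = c k ∧ (∀ i, i ∉ s → ((w : Matrix ι ι ℤ) *ᵥ c) i = c i) ∧
      (∀ i ∈ t, ((w : Matrix ι ι ℤ) *ᵥ c) i - c k = ε) ∧
      ∀ i ∈ s.erase k, (((w : Matrix ι ι ℤ) *ᵥ c) i - c k).natAbs = 1 := by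
  induction t using Finset.induction_on with
  | empty =>
    refine ⟨1, one_mem _, ?_, ?_, ?_, ?_⟩
    · rw [Units.val_one, one_mulVec]
    · intro i _
      rw [Units.val_one, one_mulVec]
    · intro i hi
      exact absurd hi (Finset.notMem_empty i)
    · intro i hi
      rw [Units.val_one, one_mulVec]
      exact hc i hi
  | insert a t ha ih =>
    obtain ⟨w, hw, h1, h2, h3, h4⟩ := ih ((Finset.subset_insert a t).trans ht)
    have has : a ∈ s.erase k := ht (Finset.mem_insert_self a t)
    have hak : a ≠ k := (Finset.mem_erase.mp has).1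
    set c' := (w : Matrix ι ι ℤ) *ᵥ c with hc'
    by_cases hcase : c' a - c k = ε
    · refine ⟨w, hw, h1, h2, ?_, h4⟩
      intro i hi
      rcases Finset.mem_insert.mp hi with rfl | hi
      · exact hcase
      · exact h3 i hi
    · have h5 := h4 a has
      have hval : 2 * c k - c' a - c k = ε := by
        rcases hε with rfl | rfl <;> omega
      have hw' : ((uT a k hak * w : GL ι ℤ) : Matrix ι ι ℤ) *ᵥ c =
          Function.update c' a (2 * c k - c' a) := by
        show ((uT a k hak : Matrix ι ι ℤ) * (w : Matrix ι ι ℤ)) *ᵥ c = _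
        rw [← mulVec_mulVec, uT_mulVec, ← hc', h1]
      refine ⟨uT a k hak * w, mul_mem (uT_mem_W hak (Finset.mem_erase.mp has).2 hk) hw,
        ?_, ?_, ?_, ?_⟩
      · rw [hw', Function.update_of_ne hak.symm, h1]
      · intro i hi
        rw [hw', Function.update_of_ne (fun h' : i = a => hi (h' ▸ (Finset.mem_erase.mp has).2)), h2 i hi]
      · intro i hi
        rw [hw']
        rcases Finset.mem_insert.mp hi with rfl | hi
        · rw [Function.update_self, hval]
        · rw [Function.update_of_ne (fun h' : i = a => ha (h' ▸ hi)), h3 i hi]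
      · intro i hi
        rw [hw']
        by_cases hia : i = a
        · subst hia
          rw [Function.update_self, hval]
          rcases hε with rfl | rfl <;> rfl
        · rw [Function.update_of_ne hia, h4 i hi]

theorem shift {s : Finset ι} {k j : ι} (hk : k ∈ s) (hj : j ∈ s.erase k) : ∀ (N : ℕ) (c : ι → ℤ),
    (c k - 1).natAbs = N → Odd (c k) → (∀ i ∈ s.erase k, c i - c k = -1) →
    ∃ w ∈ W s, ((w : Matrix ι ι ℤ) *ᵥ c) k = 1 ∧ (∀ i, i ∉ s → ((w : Matrix ι ι ℤ) *ᵥ c) i = c i) ∧
      ∀ i ∈ s.erase k, ((w : Matrix ι ι ℤ) *ᵥ c) i = 0 := by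
  intro N
  induction N using Nat.strong_induction_on with
  | _ N ih =>
  intro c hN hodd hc
  have hjk : j ≠ k := (Finset.mem_erase.mp hj).1
  have hjs : j ∈ s := (Finset.mem_erase.mp hj).2
  by_cases h1 : c k = 1
  · refine ⟨1, one_mem _, ?_, ?_, ?_⟩
    · rw [Units.val_one, one_mulVec, h1]
    · intro i _
      rw [Units.val_one, one_mulVec]
    · intro i hi
      rw [Units.val_one, one_mulVec]
      have := hc i hi
      omega
  · obtain ⟨m, hm⟩ := hodd
    rcases lt_or_gt_of_ne h1 with hlt | hgt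
    · -- increase
      obtain ⟨w, hw, a1, a2, a3, a4⟩ := flip hk (ε := 1) (Or.inl rfl) c
        (fun i hi => by rw [hc i hi]; rfl) (s.erase k) subset_rfl
      set c' := (w : Matrix ι ι ℤ) *ᵥ c with hc'
      have hw' : ((uT k j hjk.symm * w : GL ι ℤ) : Matrix ι ι ℤ) *ᵥ c =
          Function.update c' k (c k + 2) := by
        show ((uT k j hjk.symm : Matrix ι ι ℤ) * (w : Matrix ι ι ℤ)) *ᵥ c = _
        rw [← mulVec_mulVec, uT_mulVec, ← hc']
        congr 1
        have := a3 j hj
        rw [a1]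
        omega
      set c'' := Function.update c' k (c k + 2) with hc''
      have b1 : c'' k = c k + 2 := Function.update_self _ _ _
      obtain ⟨w2, hw2, d1, d2, d3⟩ := ih _ (by rw [← hN]; omega : (c'' k - 1).natAbs < N) c'' rfl
        (by rw [b1]; exact ⟨m + 1, by omega⟩) (by
          intro i hi
          rw [b1, hc'', Function.update_of_ne (Finset.mem_erase.mp hi).1]
          have := a3 i hi
          omega)
      have hw'' : ((w2 * (uT k j hjk.symm * w) : GL ι ℤ) : Matrix ι ι ℤ) *ᵥ c =
          (w2 : Matrix ι ι ℤ) *ᵥ c'' := by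
        rw [← hw']
        show ((w2 : Matrix ι ι ℤ) * ((uT k j hjk.symm * w : GL ι ℤ) : Matrix ι ι ℤ)) *ᵥ c = _
        rw [← mulVec_mulVec]
      refine ⟨w2 * (uT k j hjk.symm * w), mul_mem hw2 (mul_mem (uT_mem_W _ hk hjs) hw), ?_, ?_, ?_⟩
      · rw [hw'', d1]
      · intro i hi
        rw [hw'', d2 i hi, hc'', Function.update_of_ne (fun h' : i = k => hi (h' ▸ hk)), a2 i hi]
      · intro i hi
        rw [hw'', d3 i hi]
    · -- decrease
      set c0 := Function.update c k (c k - 2) with hc0
      have e0 : (uT k j hjk.symm : Matrix ι ι ℤ) *ᵥ c = c0 := by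
        rw [uT_mulVec, hc0]
        congr 1
        have := hc j hj
        omega
      have e1 : c0 k = c k - 2 := Function.update_self _ _ _
      obtain ⟨w, hw, a1, a2, a3, a4⟩ := flip hk (ε := -1) (Or.inr rfl) c0
        (fun i hi => by
          rw [e1, hc0, Function.update_of_ne (Finset.mem_erase.mp hi).1]
          have := hc i hi
          omega) (s.erase k) subset_rfl
      set c' := (w : Matrix ι ι ℤ) *ᵥ c0 with hc'
      obtain ⟨w2, hw2, d1, d2, d3⟩ := ih _ (by rw [← hN, a1, e1]; omega : (c' k - 1).natAbs < N)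
        c' rfl (by rw [a1, e1]; exact ⟨m - 1, by omega⟩) (by
          intro i hi
          rw [a1]
          exact a3 i hi)
      have hw'' : ((w2 * (w * uT k j hjk.symm) : GL ι ℤ) : Matrix ι ι ℤ) *ᵥ c =
          (w2 : Matrix ι ι ℤ) *ᵥ c' := by
        show ((w2 : Matrix ι ι ℤ) * ((w : Matrix ι ι ℤ) * (uT k j hjk.symm : Matrix ι ι ℤ))) *ᵥ c = _
        rw [← mulVec_mulVec, ← mulVec_mulVec, e0]
      refine ⟨w2 * (w * uT k j hjk.symm), mul_mem hw2 (mul_mem hw (uT_mem_W _ hk hjs)), ?_, ?_, ?_⟩
      · rw [hw'', d1]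
      · intro i hi
        rw [hw'', d2 i hi, a2 i hi, hc0, Function.update_of_ne (fun h' : i = k => hi (h' ▸ hk))]
      · intro i hi
        rw [hw'', d3 i hi]

theorem reduce_col {s : Finset ι} {k j : ι} (hk : k ∈ s) (hj : j ∈ s.erase k) (c : ι → ℤ)
    (hc0 : ∀ i, i ∉ s → c i = 0) (heven : ∀ i ∈ s.erase k, Even (c i)) (hodd : Odd (c k))
    (hg : ∀ g : ℤ, (∀ i ∈ s.erase k, g ∣ c i - c k) → IsUnit g) :
    ∃ w ∈ W s, (w : Matrix ι ι ℤ) *ᵥ c = Pi.single k 1 := by
  obtain ⟨w1, hw1, a1, a2, a3⟩ := reduce_abs hk _ c rfl heven hodd hg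
  set c1 := (w1 : Matrix ι ι ℤ) *ᵥ c with hc1
  obtain ⟨w2, hw2, b1, b2, b3, _⟩ := flip hk (ε := -1) (Or.inr rfl) c1
    (fun i hi => by rw [a1]; exact a3 i hi) (s.erase k) subset_rfl
  set c2 := (w2 : Matrix ι ι ℤ) *ᵥ c1 with hc2
  obtain ⟨w3, hw3, d1, d2, d3⟩ := shift hk hj _ c2 rfl (by rw [b1, a1]; exact hodd)
    (fun i hi => by rw [b1]; exact b3 i hi)
  refine ⟨w3 * (w2 * w1), mul_mem hw3 (mul_mem hw2 hw1), ?_⟩
  have h : ((w3 * (w2 * w1) : GL ι ℤ) : Matrix ι ι ℤ) *ᵥ c = (w3 : Matrix ι ι ℤ) *ᵥ c2 := by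
    show ((w3 : Matrix ι ι ℤ) * ((w2 : Matrix ι ι ℤ) * (w1 : Matrix ι ι ℤ))) *ᵥ c = _
    rw [← mulVec_mulVec, ← mulVec_mulVec]
  rw [h]
  funext i
  by_cases hik : i = k
  · subst hik
    rw [d1, Pi.single_eq_same]
  · rw [Pi.single_eq_of_ne hik]
    by_cases his : i ∈ s
    · exact d3 i (Finset.mem_erase.mpr ⟨hik, his⟩)
    · rw [d2 i his, b2 i his, a2 i his, hc0 i his]

/-! ### Translations -/

/-- The matrix `1 + e_k yᵀ`. -/
def trm (k : ι) (y : ι → ℤ) : Matrix ι ι ℤ := fun a b =>
  (if a = b then 1 else 0) + (if a = k then y b else 0)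

theorem trm_mulVec (k : ι) (y x : ι → ℤ) :
    trm k y *ᵥ x = fun a => x a + if a = k then y ⬝ᵥ x else 0 := by
  funext a
  show ∑ b, ((if a = b then 1 else 0) + (if a = k then y b else 0)) * x b = _
  simp only [add_mul, Finset.sum_add_distrib]
  congr 1
  · simp
  · by_cases ha : a = k
    · simp only [if_pos ha]
      rfl
    · simp [ha]

theorem trm_mul {k : ι} {y z : ι → ℤ} (hy : y k = 0) : trm k y * trm k z = trm k (y + z) := by
  apply ext_vec
  intro x
  rw [← mulVec_mulVec, trm_mulVec, trm_mulVec, trm_mulVec]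
  funext a
  by_cases ha : a = k
  · subst ha
    simp only [if_true]
    have h1 : (y ⬝ᵥ fun b => x b + if b = a then z ⬝ᵥ x else 0) = y ⬝ᵥ x := by
      unfold dotProduct
      refine Finset.sum_congr rfl fun b _ => ?_
      show y b * (x b + if b = a then _ else 0) = y b * x b
      by_cases hb : b = a
      · subst hb; rw [hy]; ring
      · rw [if_neg hb, add_zero]
    rw [h1, add_dotProduct]
    ring
  · simp [ha]

theorem trm_zero (k : ι) : trm k 0 = 1 := by
  apply ext_vec
  intro x
  rw [trm_mulVec, one_mulVec]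
  funext a
  simp

/-- The matrix `1 + e_k yᵀ` as a unit, if `y_k = 0`. -/
def utr (k : ι) (y : ι → ℤ) (hy : y k = 0) : GL ι ℤ where
  val := trm k y
  inv := trm k (-y)
  val_inv := by rw [trm_mul hy, add_neg_cancel, trm_zero]
  inv_val := by rw [trm_mul (by simp [hy]), neg_add_cancel, trm_zero]

theorem utr_mem {H : Subgroup (GL ι ℤ)} (hT : ∀ (i j : ι) (h : i ≠ j), uT i j h ∈ H) {k : ι}
    (y : ι → ℤ) (hy : y k = 0) (heven : ∀ i, Even (y i)) (hsum : ∑ i, y i = 0) :
    utr k y hy ∈ H := by
  by_cases hex : ∃ j, j ≠ k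
  · obtain ⟨j, hj⟩ := hex
    let A : AddSubgroup (ι → ℤ) :=
      { carrier := {z | ∃ h : z k = 0, utr k z h ∈ H}
        zero_mem' := ⟨rfl, by
          have : utr k 0 rfl = 1 := Units.ext (trm_zero k)
          rw [this]; exact one_mem H⟩
        add_mem' := by
          rintro z w ⟨hz, hz'⟩ ⟨hw, hw'⟩
          refine ⟨by simp [hz, hw], ?_⟩
          have : utr k (z + w) (by simp [hz, hw]) = utr k z hz * utr k w hw :=
            Units.ext (trm_mul hz).symm
          rw [this]
          exact mul_mem hz' hw'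
        neg_mem' := by
          rintro z ⟨hz, hz'⟩
          refine ⟨by simp [hz], ?_⟩
          have : utr k (-z) (by simp [hz]) = (utr k z hz)⁻¹ := Units.ext rfl
          rw [this]
          exact inv_mem hz' }
    have hA : ∀ i, i ≠ k → (Pi.single i 2 - Pi.single j 2 : ι → ℤ) ∈ A := by
      intro i hi
      refine ⟨by simp [Pi.single_eq_of_ne hi.symm, Pi.single_eq_of_ne hj.symm], ?_⟩
      have : utr k (Pi.single i 2 - Pi.single j 2 : ι → ℤ)
          (by simp [Pi.single_eq_of_ne hi.symm, Pi.single_eq_of_ne hj.symm]) =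
          uT k i hi.symm * uT k j hj.symm := by
        apply ext_unit
        intro x
        show trm k _ *ᵥ x = ((uT k i hi.symm : Matrix ι ι ℤ) * (uT k j hj.symm : Matrix ι ι ℤ)) *ᵥ x
        rw [← mulVec_mulVec, uT_mulVec, uT_mulVec, trm_mulVec, Function.update_idem,
          Function.update_self, Function.update_of_ne hi]
        funext a
        by_cases ha : a = k
        · subst ha
          simp only [if_true, Function.update_self, sub_dotProduct, single_dotProduct]
          ring
        · simp [ha]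
      rw [this]
      exact mul_mem (hT _ _ _) (hT _ _ _)
    choose z hz using heven
    have hzk : z k = 0 := by
      have := hz k
      omega
    have hzsum : ∑ i, z i = 0 := by
      have h1 : ∑ i, y i = 2 * ∑ i, z i := by
        rw [Finset.mul_sum]
        exact Finset.sum_congr rfl fun i _ => by rw [hz i]; ring
      omega
    have hy2 : y = ∑ i ∈ Finset.univ.erase k, z i • (Pi.single i 2 - Pi.single j 2 : ι → ℤ) := by
      funext a
      rw [Finset.sum_apply]
      simp only [Pi.smul_apply, Pi.sub_apply, smul_eq_mul, mul_sub, Finset.sum_sub_distrib]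
      have h1 : ∑ i ∈ Finset.univ.erase k, z i * (Pi.single j 2 : ι → ℤ) a = 0 := by
        rw [← Finset.sum_mul]
        have : ∑ i ∈ Finset.univ.erase k, z i = 0 := by
          rw [← Finset.sum_erase_add _ _ (Finset.mem_univ k), hzk, add_zero] at hzsum
          exact hzsum
        rw [this, zero_mul]
      rw [h1, sub_zero]
      by_cases ha : a = k
      · subst ha
        rw [hy]
        symm
        apply Finset.sum_eq_zero
        intro i hi
        rw [Pi.single_eq_of_ne (Finset.mem_erase.mp hi).1.symm, mul_zero]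
      · rw [Finset.sum_eq_single a]
        · rw [Pi.single_eq_same, hz a]; ring
        · intro i _ hi
          rw [Pi.single_eq_of_ne hi.symm, mul_zero]
        · intro h
          exact absurd (Finset.mem_erase.mpr ⟨ha, Finset.mem_univ a⟩) h
    have hyA : y ∈ A := by
      rw [hy2]
      exact AddSubgroup.sum_mem _ fun i hi =>
        AddSubgroup.zsmul_mem _ (hA i (Finset.mem_erase.mp hi).1) _
    exact hyA.2
  · push Not at hex
    have h0 : y = 0 := by
      funext a
      rw [hex a, hy]
      rfl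
    subst h0
    have : utr k 0 hy = 1 := Units.ext (trm_zero k)
    rw [this]
    exact one_mem H

/-! ### The candidates are products -/

theorem entry_one_of_mod {M : GL ι ℤ}
    (h : (M : Matrix ι ι ℤ).map (Int.castRingHom (ZMod 2)) = 1) (a b : ι) :
    (((M : Matrix ι ι ℤ) a b : ℤ) : ZMod 2) = if a = b then 1 else 0 := by
  have h1 := congrFun (congrFun h a) b
  rw [Matrix.one_apply] at h1
  exact h1

theorem even_of_mod {M : GL ι ℤ}
    (h : (M : Matrix ι ι ℤ).map (Int.castRingHom (ZMod 2)) = 1) {a b : ι} (hab : a ≠ b) :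
    Even ((M : Matrix ι ι ℤ) a b) := by
  have h1 := entry_one_of_mod h a b
  rw [if_neg hab, ZMod.intCast_zmod_eq_zero_iff_dvd] at h1
  exact even_iff_two_dvd.mpr (by exact_mod_cast h1)

theorem odd_of_mod {M : GL ι ℤ}
    (h : (M : Matrix ι ι ℤ).map (Int.castRingHom (ZMod 2)) = 1) (a : ι) :
    Odd ((M : Matrix ι ι ℤ) a a) := by
  have h1 := entry_one_of_mod h a a
  rw [if_pos rfl] at h1
  have h2 : (((M : Matrix ι ι ℤ) a a - 1 : ℤ) : ZMod 2) = 0 := by
    push_cast
    rw [h1, sub_self]
  rw [ZMod.intCast_zmod_eq_zero_iff_dvd] at h2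
  obtain ⟨m, hm⟩ := h2
  exact ⟨m, by push_cast at hm; omega⟩

theorem mem_of_mem_Γ {H : Subgroup (GL ι ℤ)} (hT : ∀ (i j : ι) (h : i ≠ j), uT i j h ∈ H) :
    ∀ (s : Finset ι) (M : GL ι ℤ), M ∈ Γ s → M ∈ H := by
  intro s
  induction s using Finset.induction_on with
  | empty =>
    rintro M ⟨-, -, h3, -⟩
    have : M = 1 := by
      apply Units.ext
      ext i j
      have h4 := congrFun (h3 j (Finset.notMem_empty j)) i
      rw [mulVec_single_one] at h4
      rw [Units.val_one, Matrix.one_apply]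
      show (M : Matrix ι ι ℤ).col j i = _
      rw [h4, Pi.single_apply]
    rw [this]
    exact one_mem H
  | insert k s' hks ih =>
    intro M hM
    set s := insert k s' with hs
    have hk : k ∈ s := Finset.mem_insert_self k s'
    have herase : s.erase k = s' := Finset.erase_insert hks
    -- make the `k`-th column standard
    obtain ⟨w, hw, hwc⟩ : ∃ w ∈ W s, (w : Matrix ι ι ℤ) *ᵥ ((M : Matrix ι ι ℤ) *ᵥ Pi.single k 1) =
        Pi.single k 1 := by
      have hM' := hM
      obtain ⟨h1, h2, h3, h4⟩ := hM'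
      obtain ⟨n1, n2, n3, n4⟩ := inv_mem hM
      by_cases hne : ∃ j, j ∈ s.erase k
      · obtain ⟨j, hj⟩ := hne
        have hjk : j ≠ k := (Finset.mem_erase.mp hj).1
        have hjs : j ∈ s := (Finset.mem_erase.mp hj).2
        have hcol : ∀ i, ((M : Matrix ι ι ℤ) *ᵥ Pi.single k 1) i = (M : Matrix ι ι ℤ) i k := by
          intro i
          rw [mulVec_single_one]
          rfl
        refine reduce_col hk hj _ ?_ ?_ ?_ ?_
        · intro i hi
          have h5 := congrFun (h4 i hi) k
          rw [single_one_vecMul] at h5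
          rw [hcol]
          have h6 : (M : Matrix ι ι ℤ) i k = (Pi.single i 1 : ι → ℤ) k := h5
          rw [h6, Pi.single_eq_of_ne]
          rintro rfl
          exact hi hk
        · intro i hi
          rw [hcol]
          exact even_of_mod h2 (Finset.mem_erase.mp hi).1
        · rw [hcol]
          exact odd_of_mod h2 k
        · intro g hg
          set N := ((M⁻¹ : GL ι ℤ) : Matrix ι ι ℤ) with hN
          have hNM : N *ᵥ ((M : Matrix ι ι ℤ) *ᵥ Pi.single k 1) = Pi.single k 1 := by
            rw [mulVec_mulVec, hN]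
            have : ((M⁻¹ : GL ι ℤ) : Matrix ι ι ℤ) * (M : Matrix ι ι ℤ) = 1 := M.inv_mul
            rw [this, one_mulVec]
          have key : ∀ a ∈ s, g ∣ (Pi.single k 1 : ι → ℤ) a - (M : Matrix ι ι ℤ) k k := by
            intro a ha
            have e1 : ∑ b, N a b = 1 := by
              have := congrFun n1 a
              simpa [mulVec, dotProduct] using this
            have e2 : (Pi.single k 1 : ι → ℤ) a = ∑ b, N a b * (M : Matrix ι ι ℤ) b k := by
              rw [← hNM]
              show ∑ b, N a b * ((M : Matrix ι ι ℤ) *ᵥ Pi.single k 1) b = _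
              exact Finset.sum_congr rfl fun b _ => by rw [hcol]
            have e3 : (Pi.single k 1 : ι → ℤ) a - (M : Matrix ι ι ℤ) k k =
                ∑ b, N a b * ((M : Matrix ι ι ℤ) b k - (M : Matrix ι ι ℤ) k k) := by
              simp only [mul_sub, Finset.sum_sub_distrib, ← Finset.sum_mul, e1, one_mul]
              rw [e2]
            rw [e3]
            apply Finset.dvd_sum
            intro b _
            by_cases hb : b ∈ s
            · by_cases hbk : b = k
              · subst hbk; simp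
              · have := hg b (Finset.mem_erase.mpr ⟨hbk, hb⟩)
                rw [hcol, hcol] at this
                exact Dvd.dvd.mul_left this _
            · have e4 := congrFun (n3 b hb) a
              rw [mulVec_single_one] at e4
              have e5 : N a b = (Pi.single b 1 : ι → ℤ) a := e4
              rw [e5, Pi.single_eq_of_ne, zero_mul]
              · exact dvd_zero g
              · rintro rfl
                exact hb ha
          have k1 := key k hk
          have k2 := key j hjs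
          rw [Pi.single_eq_same] at k1
          rw [Pi.single_eq_of_ne hjk] at k2
          have k3 : g ∣ 1 := by
            have : (1 : ℤ) = (1 - (M : Matrix ι ι ℤ) k k) - (0 - (M : Matrix ι ι ℤ) k k) := by ring
            rw [this]
            exact dvd_sub k1 k2
          exact isUnit_of_dvd_one k3
      · push Not at hne
        refine ⟨1, one_mem _, ?_⟩
        rw [Units.val_one, one_mulVec]
        have hcolb : ∀ b, b ≠ k → ∀ a, (M : Matrix ι ι ℤ) a b = if a = b then 1 else 0 := by
          intro b hb a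
          have hbs : b ∉ s := fun h' => hne b (Finset.mem_erase.mpr ⟨hb, h'⟩)
          have e4 := congrFun (h3 b hbs) a
          rw [mulVec_single_one] at e4
          have e5 : (M : Matrix ι ι ℤ) a b = (Pi.single b 1 : ι → ℤ) a := e4
          rw [e5, Pi.single_apply]
        have hrowsum : ∀ a, ∑ b, (M : Matrix ι ι ℤ) a b = 1 := by
          intro a
          have := congrFun h1 a
          simpa [mulVec, dotProduct] using this
        rw [mulVec_single_one]
        funext a
        show (M : Matrix ι ι ℤ) a k = _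
        have e1 := hrowsum a
        rw [← Finset.sum_erase_add _ _ (Finset.mem_univ k)] at e1
        have e2 : ∑ b ∈ Finset.univ.erase k, (M : Matrix ι ι ℤ) a b = if a = k then 0 else 1 := by
          rw [Finset.sum_congr rfl fun b hb => hcolb b (Finset.mem_erase.mp hb).1 a]
          by_cases ha : a = k
          · rw [if_pos ha]
            apply Finset.sum_eq_zero
            intro b hb
            rw [if_neg]
            rintro rfl
            exact (Finset.mem_erase.mp hb).1 ha
          · rw [if_neg ha, Finset.sum_ite_eq, if_pos (Finset.mem_erase.mpr ⟨ha, Finset.mem_univ a⟩)]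
        rw [e2] at e1
        rw [Pi.single_apply]
        by_cases ha : a = k
        · rw [if_pos ha] at e1 ⊢
          omega
        · rw [if_neg ha] at e1 ⊢
          omega
    have hwΓ : w ∈ Γ s := W_le_Γ s hw
    have hwH : w ∈ H := W_le hT s hw
    set M1 := w * M with hM1
    have hM1Γ : M1 ∈ Γ s := mul_mem hwΓ hM
    have hM1k : (M1 : Matrix ι ι ℤ) *ᵥ Pi.single k 1 = Pi.single k 1 := by
      rw [hM1]
      show ((w : Matrix ι ι ℤ) * (M : Matrix ι ι ℤ)) *ᵥ _ = _
      rw [← mulVec_mulVec]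
      exact hwc
    obtain ⟨n1, n2, n3, n4⟩ := inv_mem hM1Γ
    set N := ((M1⁻¹ : GL ι ℤ) : Matrix ι ι ℤ) with hN
    have hNM : N * (M1 : Matrix ι ι ℤ) = 1 := M1.inv_mul
    have hNk : N *ᵥ Pi.single k 1 = Pi.single k 1 := by
      conv_lhs => rw [← hM1k]
      rw [mulVec_mulVec, hNM, one_mulVec]
    have hNkk : N k k = 1 := by
      have e4 := congrFun hNk k
      rw [mulVec_single_one, Pi.single_eq_same] at e4
      exact e4
    let y : ι → ℤ := fun b => N k b - if b = k then 1 else 0
    have hyk : y k = 0 := by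
      show N k k - (if k = k then 1 else 0) = 0
      rw [hNkk, if_pos rfl, sub_self]
    have hyeven : ∀ b, Even (y b) := by
      intro b
      by_cases hb : b = k
      · subst hb
        rw [hyk]
        exact Even.zero
      · show Even (N k b - if b = k then 1 else 0)
        rw [if_neg hb, sub_zero]
        exact even_of_mod n2 (Ne.symm hb)
    have hysum : ∑ b, y b = 0 := by
      show ∑ b, (N k b - if b = k then 1 else 0) = 0
      rw [Finset.sum_sub_distrib, Finset.sum_ite_eq', if_pos (Finset.mem_univ k)]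
      have : ∑ b, N k b = 1 := by
        have := congrFun n1 k
        simpa [mulVec, dotProduct] using this
      rw [this, sub_self]
    have hys : ∀ b, b ∉ s → y b = 0 := by
      intro b hb
      have hbk : b ≠ k := by
        rintro rfl
        exact hb hk
      show N k b - (if b = k then 1 else 0) = 0
      rw [if_neg hbk, sub_zero]
      have e4 := congrFun (n3 b hb) k
      rw [mulVec_single_one] at e4
      have e5 : N k b = (Pi.single b 1 : ι → ℤ) k := e4
      rw [e5, Pi.single_eq_of_ne hbk.symm]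
    set K := utr k y hyk with hK
    have hKH : K ∈ H := utr_mem hT y hyk hyeven hysum
    have hKval : (K : Matrix ι ι ℤ) = trm k y := rfl
    have hKrow : Pi.single k 1 ᵥ* (K : Matrix ι ι ℤ) = N.row k := by
      rw [single_one_vecMul]
      funext b
      show (if k = b then 1 else 0) + (if k = k then y b else 0) = N k b
      rw [if_pos rfl]
      show (if k = b then 1 else 0) + (N k b - if b = k then 1 else 0) = N k b
      by_cases hb : k = b
      · subst hb; simp
      · rw [if_neg hb, if_neg (Ne.symm hb)]; ring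
    have hKother : ∀ a, a ≠ k → Pi.single a 1 ᵥ* (K : Matrix ι ι ℤ) = Pi.single a 1 := by
      intro a ha
      rw [single_one_vecMul]
      funext b
      show (if a = b then 1 else 0) + (if a = k then y b else 0) = (Pi.single a 1 : ι → ℤ) b
      rw [if_neg ha, add_zero, Pi.single_apply]
      simp only [eq_comm]
    have hKM : K * M1 ∈ Γ s' := by
      obtain ⟨m1, m2, m3, m4⟩ := hM1Γ
      refine ⟨?_, ?_, fun b hb => ?_, fun a ha => ?_⟩
      · show ((K : Matrix ι ι ℤ) * (M1 : Matrix ι ι ℤ)) *ᵥ _ = _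
        rw [← mulVec_mulVec, m1, hKval, trm_mulVec]
        funext a
        have : (y ⬝ᵥ fun _ => 1) = 0 := by
          rw [← hysum]
          simp [dotProduct]
        rw [this]
        simp
      · show ((K : Matrix ι ι ℤ) * (M1 : Matrix ι ι ℤ)).map (Int.castRingHom (ZMod 2)) = 1
        rw [Matrix.map_mul, m2, mul_one, hKval]
        ext a b
        show (((if a = b then 1 else 0) + (if a = k then y b else 0) : ℤ) : ZMod 2) = _
        rw [Matrix.one_apply]
        have : ((y b : ℤ) : ZMod 2) = 0 := by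
          rw [ZMod.intCast_zmod_eq_zero_iff_dvd]
          exact_mod_cast even_iff_two_dvd.mp (hyeven b)
        split_ifs <;> simp [this]
      · show ((K : Matrix ι ι ℤ) * (M1 : Matrix ι ι ℤ)) *ᵥ _ = _
        rw [← mulVec_mulVec]
        by_cases hbk : b = k
        · subst hbk
          rw [hM1k, hKval, trm_mulVec]
          funext a
          rw [dotProduct_single, hyk]
          simp
        · have hbs : b ∉ s := by
            rw [hs, Finset.mem_insert]
            push Not
            exact ⟨hbk, hb⟩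
          rw [m3 b hbs, hKval, trm_mulVec]
          funext a
          rw [dotProduct_single, hys b hbs]
          simp
      · show _ ᵥ* ((K : Matrix ι ι ℤ) * (M1 : Matrix ι ι ℤ)) = _
        rw [← vecMul_vecMul]
        by_cases hak : a = k
        · subst hak
          rw [hKrow]
          have : N.row a = Pi.single a 1 ᵥ* N := (single_one_vecMul a N).symm
          rw [this, vecMul_vecMul, hNM, vecMul_one]
        · have has : a ∉ s := by
            rw [hs, Finset.mem_insert]
            push Not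
            exact ⟨hak, ha⟩
          rw [hKother a hak, m4 a has]
    have h1 := ih _ hKM
    have h2 : M = w⁻¹ * (K⁻¹ * (K * M1)) := by
      rw [inv_mul_cancel_left, hM1, inv_mul_cancel_left]
    rw [h2]
    exact mul_mem (inv_mem hwH) (mul_mem (inv_mem hKH) h1)

/-! ### Relations between blocks -/

set_option linter.unusedSimpArgs false in
theorem blk_comm {u v u' v' : ι} (h : u ≠ v) (h' : u' ≠ v') (h1 : u ≠ u') (h2 : u ≠ v')
    (h3 : v ≠ u') (h4 : v ≠ v') (p q r s p' q' r' s' : ℤ) :
    blk u v p q r s * blk u' v' p' q' r' s' = blk u' v' p' q' r' s' * blk u v p q r s := by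
  apply ext_vec
  intro x
  rw [← mulVec_mulVec, ← mulVec_mulVec, blk_mulVec h, blk_mulVec h', blk_mulVec h', blk_mulVec h]
  funext a
  by_cases ha : a = u
  · subst ha
    simp [h1, h2, h3, h4, h, h.symm]
  · by_cases ha2 : a = v
    · subst ha2
      simp [h1, h2, h3, h4, h, h.symm]
    · simp [ha, ha2, h1.symm, h2.symm, h3.symm, h4.symm]

section Braid

set_option linter.unusedSimpArgs false

variable {u v w : ι} (h1 : u ≠ v) (h2 : v ≠ w) (h3 : u ≠ w)

include h3 in
theorem braid_σ : uσ u v h1 * uσ v w h2 * uσ u v h1 = uσ v w h2 * uσ u v h1 * uσ v w h2 := by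
  apply ext_unit
  intro x
  show (blk u v 2 (-1) 1 0 * blk v w 2 (-1) 1 0 * blk u v 2 (-1) 1 0) *ᵥ x =
    (blk v w 2 (-1) 1 0 * blk u v 2 (-1) 1 0 * blk v w 2 (-1) 1 0) *ᵥ x
  simp only [← mulVec_mulVec, blk_mulVec h1, blk_mulVec h2]
  funext a
  by_cases ha : a = u
  · subst ha
    simp [h1, h1.symm, h2, h2.symm, h3, h3.symm]
    ring
  · by_cases ha2 : a = v
    · subst ha2
      simp [h1, h1.symm, h2, h2.symm, h3, h3.symm]
    · by_cases ha3 : a = w
      · subst ha3
        simp [h1, h1.symm, h2, h2.symm, h3, h3.symm]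
      · simp [ha, ha2, ha3]

include h3 in
theorem braid_τ : uτ u v h1 * uτ v w h2 * uτ u v h1 = uτ v w h2 * uτ u v h1 * uτ v w h2 := by
  apply ext_unit
  intro x
  show (blk u v 0 1 1 0 * blk v w 0 1 1 0 * blk u v 0 1 1 0) *ᵥ x =
    (blk v w 0 1 1 0 * blk u v 0 1 1 0 * blk v w 0 1 1 0) *ᵥ x
  simp only [← mulVec_mulVec, blk_mulVec h1, blk_mulVec h2]
  funext a
  by_cases ha : a = u
  · subst ha
    simp [h1, h1.symm, h2, h2.symm, h3, h3.symm]
  · by_cases ha2 : a = v
    · subst ha2
      simp [h1, h1.symm, h2, h2.symm, h3, h3.symm]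
    · by_cases ha3 : a = w
      · subst ha3
        simp [h1, h1.symm, h2, h2.symm, h3, h3.symm]
      · simp [ha, ha2, ha3]

include h3 in
theorem braid_m : uτ u v h1 * uτ v w h2 * uσ u v h1 = uσ v w h2 * uτ u v h1 * uτ v w h2 := by
  apply ext_unit
  intro x
  show (blk u v 0 1 1 0 * blk v w 0 1 1 0 * blk u v 2 (-1) 1 0) *ᵥ x =
    (blk v w 2 (-1) 1 0 * blk u v 0 1 1 0 * blk v w 0 1 1 0) *ᵥ x
  simp only [← mulVec_mulVec, blk_mulVec h1, blk_mulVec h2]
  funext a
  by_cases ha : a = u
  · subst ha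
    simp [h1, h1.symm, h2, h2.symm, h3, h3.symm]
  · by_cases ha2 : a = v
    · subst ha2
      simp [h1, h1.symm, h2, h2.symm, h3, h3.symm]
    · by_cases ha3 : a = w
      · subst ha3
        simp [h1, h1.symm, h2, h2.symm, h3, h3.symm]
      · simp [ha, ha2, ha3]

end Braid

/-! ### Row sums and reduction modulo two -/

/-- Row sums `1`, and congruent to a permutation matrix modulo `2`. -/
def R : Subgroup (GL ι ℤ) where
  carrier := {M | (M : Matrix ι ι ℤ) *ᵥ (fun _ => 1) = (fun _ => 1) ∧
    ∃ π : Equiv.Perm ι, (M : Matrix ι ι ℤ).map (Int.castRingHom (ZMod 2)) =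
      (pm π).map (Int.castRingHom (ZMod 2))}
  one_mem' := ⟨one_mulVec _, 1,
    congrArg (fun X : GL ι ℤ => (X : Matrix ι ι ℤ).map (Int.castRingHom (ZMod 2)))
      (map_one (up (ι := ι))).symm⟩
  mul_mem' := by
    rintro M N ⟨h1, π, h2⟩ ⟨k1, ρ, k2⟩
    refine ⟨?_, π * ρ, ?_⟩
    · show ((M : Matrix ι ι ℤ) * (N : Matrix ι ι ℤ)) *ᵥ _ = _
      rw [← mulVec_mulVec, k1, h1]
    · show ((M : Matrix ι ι ℤ) * (N : Matrix ι ι ℤ)).map (Int.castRingHom (ZMod 2)) = _
      rw [Matrix.map_mul, h2, k2, ← Matrix.map_mul]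
      congr 1
      exact (congrArg (fun X : GL ι ℤ => (X : Matrix ι ι ℤ)) (map_mul (up (ι := ι)) π ρ)).symm
  inv_mem' := by
    rintro M ⟨h1, π, h2⟩
    have hMN : ((M⁻¹ : GL ι ℤ) : Matrix ι ι ℤ) * (M : Matrix ι ι ℤ) = 1 := M.inv_mul
    refine ⟨?_, π⁻¹, ?_⟩
    · conv_lhs => rw [← h1]
      rw [mulVec_mulVec, hMN, one_mulVec]
    · have h3 : pm π * pm π⁻¹ = 1 := by
        have := congrArg (fun X : GL ι ℤ => (X : Matrix ι ι ℤ)) (map_mul (up (ι := ι)) π π⁻¹)
        have h4 : pm (π * π⁻¹) = pm π * pm π⁻¹ := this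
        rw [← h4, mul_inv_cancel]
        exact congrArg (fun X : GL ι ℤ => (X : Matrix ι ι ℤ)) (map_one (up (ι := ι)))
      have h5 := congrArg (fun X : Matrix ι ι ℤ => X.map (Int.castRingHom (ZMod 2))) hMN
      simp only [Matrix.map_mul, h2] at h5
      have h6 := congrArg (fun X : Matrix ι ι ℤ => X.map (Int.castRingHom (ZMod 2))) h3
      simp only [Matrix.map_mul] at h6
      have h7 : (1 : Matrix ι ι ℤ).map (Int.castRingHom (ZMod 2)) = 1 :=
        Matrix.map_one _ (map_zero _) (map_one _)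
      rw [h7] at h5 h6
      calc ((M⁻¹ : GL ι ℤ) : Matrix ι ι ℤ).map (Int.castRingHom (ZMod 2))
          = ((M⁻¹ : GL ι ℤ) : Matrix ι ι ℤ).map (Int.castRingHom (ZMod 2)) *
            ((pm π).map (Int.castRingHom (ZMod 2)) *
              (pm π⁻¹).map (Int.castRingHom (ZMod 2))) := by rw [h6, mul_one]
        _ = _ := by rw [← mul_assoc, h5, one_mul]

theorem up_mem_R (π : Equiv.Perm ι) : up π ∈ (R : Subgroup (GL ι ℤ)) := by
  refine ⟨?_, π, rfl⟩
  rw [up_mulVec]

theorem uT_mem_R {i j : ι} (h : i ≠ j) : uT i j h ∈ (R : Subgroup (GL ι ℤ)) := by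
  obtain ⟨h1, h2, _, _⟩ := uT_mem_Γ h (Finset.mem_univ i) (Finset.mem_univ j)
  refine ⟨h1, 1, ?_⟩
  rw [h2]
  have h3 : pm (1 : Equiv.Perm ι) = 1 :=
    congrArg (fun X : GL ι ℤ => (X : Matrix ι ι ℤ)) (map_one (up (ι := ι)))
  rw [h3]
  exact (Matrix.map_one _ (map_zero _) (map_one _)).symm

theorem uσ_eq {i j : ι} (h : i ≠ j) : uσ i j h = uT i j h * uτ i j h := by
  rw [← uσ_mul_uτ, mul_assoc]
  have : uτ i j h * uτ i j h = 1 := by
    apply Units.ext
    show blk i j 0 1 1 0 * blk i j 0 1 1 0 = 1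
    rw [blk_mul h]
    exact blk_one h
  rw [this, mul_one]

end Blocks

/-! ### The virtual braid group -/

/-- The generators `σ_i, τ_i` of the virtual braid group on `n + 1` strands. -/
inductive Gen (n : ℕ)
  | s (i : Fin n)
  | t (i : Fin n)

/-- The letter `σ_i`. -/
def σ {n : ℕ} (i : Fin n) : FreeGroup (Gen n) := FreeGroup.of (Gen.s i)

/-- The letter `τ_i`. -/
def τ {n : ℕ} (i : Fin n) : FreeGroup (Gen n) := FreeGroup.of (Gen.t i)

/-- The defining relations (`l = r` is encoded as `l r⁻¹`). -/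
def rels (n : ℕ) : Set (FreeGroup (Gen n)) :=
  {r | ∃ i j : Fin n, (i : ℕ) + 1 = j ∧
    (r = σ i * σ j * σ i * (σ j * σ i * σ j)⁻¹ ∨ r = τ i * τ j * τ i * (τ j * τ i * τ j)⁻¹ ∨
      r = τ i * τ j * σ i * (σ j * τ i * τ j)⁻¹)} ∪
  {r | ∃ i j : Fin n, ((i : ℕ) + 2 ≤ j ∨ (j : ℕ) + 2 ≤ i) ∧
    (r = σ i * σ j * (σ j * σ i)⁻¹ ∨ r = τ i * τ j * (τ j * τ i)⁻¹ ∨
      r = σ i * τ j * (τ j * σ i)⁻¹)} ∪
  {r | ∃ i : Fin n, r = τ i * τ i}

/-- The virtual braid group on `n + 1` strands. -/
abbrev vB (n : ℕ) : Type := PresentedGroup (rels n)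

theorem ne_succ {n : ℕ} (i : Fin n) : i.castSucc ≠ i.succ := by
  intro h
  have := congrArg Fin.val h
  simp at this

/-- The matrices of the generators. -/
def gmat {n : ℕ} : Gen n → GL (Fin (n + 1)) ℤ
  | Gen.s i => uσ i.castSucc i.succ (ne_succ i)
  | Gen.t i => uτ i.castSucc i.succ (ne_succ i)

theorem lift_σ {n : ℕ} (i : Fin n) : FreeGroup.lift gmat (σ i) = uσ i.castSucc i.succ (ne_succ i) :=
  FreeGroup.lift_apply_of

theorem lift_τ {n : ℕ} (i : Fin n) : FreeGroup.lift gmat (τ i) = uτ i.castSucc i.succ (ne_succ i) :=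
  FreeGroup.lift_apply_of

theorem rels_ok (n : ℕ) : ∀ r ∈ rels n, FreeGroup.lift (gmat (n := n)) r = 1 := by
  rintro r ((⟨i, j, hij, hr⟩ | ⟨i, j, hij, hr⟩) | ⟨i, hr⟩)
  · have h1 : i.succ = j.castSucc := Fin.ext (by simpa using hij)
    have e1 := ne_succ i
    have e2 : i.castSucc ≠ j.succ := by
      intro h
      have := congrArg Fin.val h
      simp at this
      omega
    have e3 : i.succ ≠ j.succ := by
      intro h
      have := congrArg Fin.val h
      simp at this
      omega
    have cs : uσ j.castSucc j.succ (ne_succ j) = uσ i.succ j.succ e3 := by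
      congr 1
      exact h1.symm
    have ct : uτ j.castSucc j.succ (ne_succ j) = uτ i.succ j.succ e3 := by
      congr 1
      exact h1.symm
    rcases hr with rfl | rfl | rfl
    · rw [map_mul, map_inv, mul_inv_eq_one]
      simp only [map_mul, lift_σ, cs]
      exact braid_σ e1 e3 e2
    · rw [map_mul, map_inv, mul_inv_eq_one]
      simp only [map_mul, lift_τ, ct]
      exact braid_τ e1 e3 e2
    · rw [map_mul, map_inv, mul_inv_eq_one]
      simp only [map_mul, lift_τ, lift_σ, ct, cs]
      exact braid_m e1 e3 e2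
  · have e1 : i.castSucc ≠ j.castSucc := by
      intro h
      have := congrArg Fin.val h
      simp at this
      omega
    have e2 : i.castSucc ≠ j.succ := by
      intro h
      have := congrArg Fin.val h
      simp at this
      omega
    have e3 : i.succ ≠ j.castSucc := by
      intro h
      have := congrArg Fin.val h
      simp at this
      omega
    have e4 : i.succ ≠ j.succ := by
      intro h
      have := congrArg Fin.val h
      simp at this
      omega
    rcases hr with rfl | rfl | rfl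
    · rw [map_mul, map_inv, mul_inv_eq_one]
      simp only [map_mul, lift_σ]
      exact Units.ext (blk_comm (ne_succ i) (ne_succ j) e1 e2 e3 e4 _ _ _ _ _ _ _ _)
    · rw [map_mul, map_inv, mul_inv_eq_one]
      simp only [map_mul, lift_τ]
      exact Units.ext (blk_comm (ne_succ i) (ne_succ j) e1 e2 e3 e4 _ _ _ _ _ _ _ _)
    · rw [map_mul, map_inv, mul_inv_eq_one]
      simp only [map_mul, lift_τ, lift_σ]
      exact Units.ext (blk_comm (ne_succ i) (ne_succ j) e1 e2 e3 e4 _ _ _ _ _ _ _ _)
  · subst hr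
    rw [map_mul, lift_τ]
    apply Units.ext
    show blk _ _ 0 1 1 0 * blk _ _ 0 1 1 0 = 1
    rw [blk_mul (ne_succ i)]
    exact blk_one (ne_succ i)

/-- The virtual integral Burau representation. -/
def ρv (n : ℕ) : vB n →* GL (Fin (n + 1)) ℤ := PresentedGroup.toGroup (rels_ok n)

/-- The generator `σ_i` of the virtual braid group. -/
def sg {n : ℕ} (i : Fin n) : vB n := PresentedGroup.of (Gen.s i)

/-- The generator `τ_i` of the virtual braid group. -/
def tg {n : ℕ} (i : Fin n) : vB n := PresentedGroup.of (Gen.t i)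

theorem ρv_sg {n : ℕ} (i : Fin n) : ρv n (sg i) = uσ i.castSucc i.succ (ne_succ i) :=
  PresentedGroup.toGroup.of (rels_ok n)

theorem ρv_tg {n : ℕ} (i : Fin n) : ρv n (tg i) = uτ i.castSucc i.succ (ne_succ i) :=
  PresentedGroup.toGroup.of (rels_ok n)

theorem range_le (n : ℕ) : (ρv n).range ≤ R := by
  rintro _ ⟨x, rfl⟩
  have hx : x ∈ (Subgroup.comap (ρv n) R : Subgroup (PresentedGroup (rels n))) := by
    apply PresentedGroup.generated_by
    intro g
    rw [Subgroup.mem_comap]
    rcases g with i | i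
    · have : ρv n (PresentedGroup.of (Gen.s i)) = _ := ρv_sg i
      rw [this, uσ_eq, ← up_swap]
      exact mul_mem (uT_mem_R _) (up_mem_R _)
    · have : ρv n (PresentedGroup.of (Gen.t i)) = _ := ρv_tg i
      rw [this, ← up_swap]
      exact up_mem_R _
  exact hx

theorem up_mem_range (n : ℕ) (π : Equiv.Perm (Fin (n + 1))) : up π ∈ (ρv n).range := by
  have h : π ∈ Submonoid.closure (Set.range fun i : Fin n => Equiv.swap i.castSucc i.succ) := by
    rw [Equiv.Perm.mclosure_swap_castSucc_succ]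
    trivial
  induction h using Submonoid.closure_induction with
  | mem x hx =>
    obtain ⟨i, rfl⟩ := hx
    refine ⟨tg i, ?_⟩
    rw [ρv_tg]
    exact (up_swap (ne_succ i)).symm
  | one =>
    rw [map_one]
    exact one_mem _
  | mul x y _ _ hx hy =>
    rw [map_mul]
    exact mul_mem hx hy

theorem uT_mem_range (n : ℕ) (i j : Fin (n + 1)) (h : i ≠ j) : uT i j h ∈ (ρv n).range := by
  rcases n with _ | n
  · exact absurd (Subsingleton.elim (α := Fin 1) i j) h
  · let a : Fin (n + 2) := (0 : Fin (n + 1)).castSucc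
    let b : Fin (n + 2) := (0 : Fin (n + 1)).succ
    have hab : a ≠ b := ne_succ 0
    have h0 : uT a b hab ∈ (ρv (n + 1)).range := by
      rw [← uσ_mul_uτ]
      exact mul_mem ⟨sg 0, ρv_sg 0⟩ ⟨tg 0, ρv_tg 0⟩
    let π : Equiv.Perm (Fin (n + 2)) := Equiv.swap (Equiv.swap a i b) j * Equiv.swap a i
    have hb : Equiv.swap a i b ≠ i := by
      intro h'
      have : b = a := by
        have := congrArg (Equiv.swap a i) h'
        simpa using this
      exact hab this.symm
    have ha1 : π a = i := by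
      show Equiv.swap (Equiv.swap a i b) j (Equiv.swap a i a) = i
      rw [Equiv.swap_apply_left]
      exact Equiv.swap_apply_of_ne_of_ne hb.symm h
    have hb1 : π b = j := by
      show Equiv.swap (Equiv.swap a i b) j (Equiv.swap a i b) = j
      rw [Equiv.swap_apply_left]
    have h1 := up_conj π hab
    have h2 : uT i j h = uT (π a) (π b) (fun h' => hab (π.injective h')) := by
      congr 1
      · exact ha1.symm
      · exact hb1.symm
    rw [h2, ← h1]
    exact mul_mem (mul_mem (up_mem_range _ π) h0) (inv_mem (up_mem_range _ π))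

theorem range_eq (n : ℕ) : (ρv n).range = R := by
  apply le_antisymm (range_le n)
  rintro M ⟨h1, π, h2⟩
  have h3 : (up π)⁻¹ * M ∈ Γ (Finset.univ : Finset (Fin (n + 1))) := by
    have hinv : (up π)⁻¹ = up π⁻¹ := (map_inv up π).symm
    rw [hinv]
    refine ⟨?_, ?_, fun b hb => absurd (Finset.mem_univ b) hb,
      fun b hb => absurd (Finset.mem_univ b) hb⟩
    · show (((up π⁻¹ : GL (Fin (n + 1)) ℤ) : Matrix (Fin (n + 1)) (Fin (n + 1)) ℤ) *
        (M : Matrix (Fin (n + 1)) (Fin (n + 1)) ℤ)) *ᵥ _ = _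
      rw [← mulVec_mulVec, h1, up_mulVec]
    · show (((up π⁻¹ : GL (Fin (n + 1)) ℤ) : Matrix (Fin (n + 1)) (Fin (n + 1)) ℤ) *
        (M : Matrix (Fin (n + 1)) (Fin (n + 1)) ℤ)).map (Int.castRingHom (ZMod 2)) = 1
      rw [Matrix.map_mul, h2, ← Matrix.map_mul]
      have h4 : ((up π⁻¹ : GL (Fin (n + 1)) ℤ) : Matrix (Fin (n + 1)) (Fin (n + 1)) ℤ) *
          pm π = 1 := by
        have h5 := congrArg (fun X : GL (Fin (n + 1)) ℤ =>
          (X : Matrix (Fin (n + 1)) (Fin (n + 1)) ℤ)) (map_mul up π⁻¹ π)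
        have h6 : pm (π⁻¹ * π) =
          ((up π⁻¹ : GL (Fin (n + 1)) ℤ) : Matrix (Fin (n + 1)) (Fin (n + 1)) ℤ) * pm π := h5
        rw [← h6, inv_mul_cancel]
        exact congrArg (fun X : GL (Fin (n + 1)) ℤ =>
          (X : Matrix (Fin (n + 1)) (Fin (n + 1)) ℤ)) (map_one up)
      rw [h4]
      exact Matrix.map_one _ (map_zero _) (map_one _)
  have h4 := mem_of_mem_Γ (H := (ρv n).range) (uT_mem_range n) _ _ h3
  have h5 : M = up π * ((up π)⁻¹ * M) := by rw [mul_inv_cancel_left]
  rw [h5]
  exact mul_mem (up_mem_range n π) h4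

/-- **Theorem.** `ρ_v` is the representation of the virtual braid group on `n + 1` strands with
`σ_i ↦ (2 -1; 1 0)` and `τ_i ↦ (0 1; 1 0)` on the coordinates `i, i + 1`; its image consists of
the matrices in `GL_{n+1}(ℤ)` all of whose row sums are `1` and which are congruent to a
permutation matrix modulo `2`. -/
theorem result (n : ℕ) :
    (∀ i : Fin n, (ρv n (sg i) : Matrix (Fin (n + 1)) (Fin (n + 1)) ℤ) =
      blk i.castSucc i.succ 2 (-1) 1 0) ∧
    (∀ i : Fin n, (ρv n (tg i) : Matrix (Fin (n + 1)) (Fin (n + 1)) ℤ) =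
      blk i.castSucc i.succ 0 1 1 0) ∧
    ∀ M : GL (Fin (n + 1)) ℤ, M ∈ (ρv n).range ↔
      (∀ a, ∑ b, (M : Matrix (Fin (n + 1)) (Fin (n + 1)) ℤ) a b = 1) ∧
      ∃ π : Equiv.Perm (Fin (n + 1)), ∀ a b,
        (M : Matrix (Fin (n + 1)) (Fin (n + 1)) ℤ) a b ≡ (if a = π b then 1 else 0) [ZMOD 2] := by
  refine ⟨fun i => by rw [ρv_sg]; rfl, fun i => by rw [ρv_tg]; rfl, fun M => ?_⟩
  rw [range_eq]
  constructor
  · rintro ⟨h1, π, h2⟩
    refine ⟨fun a => ?_, π, fun a b => ?_⟩
    · have := congrFun h1 a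
      simpa [mulVec, dotProduct] using this
    · have h3 := congrFun (congrFun h2 a) b
      have h4 : (((M : Matrix (Fin (n + 1)) (Fin (n + 1)) ℤ) a b : ℤ) : ZMod 2) =
          ((if a = π b then 1 else 0 : ℤ) : ZMod 2) := h3
      exact (ZMod.intCast_eq_intCast_iff _ _ 2).mp h4
  · rintro ⟨h1, π, h2⟩
    refine ⟨?_, π, ?_⟩
    · funext a
      have h3 := h1 a
      show ∑ b, (M : Matrix (Fin (n + 1)) (Fin (n + 1)) ℤ) a b * 1 = 1
      simpa using h3
    · ext a b
      exact (ZMod.intCast_eq_intCast_iff _ _ 2).mpr (h2 a b)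

end Pool.Agent.Results.MP_e5baee_al.BurauImage
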